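import Pool.Agent.helper68.GB.Spec

/-!
# Project GB (MP_baa4d7_al), row FUZ: fusion of central elements
-/

set_option autoImplicit false

namespace Pool.Agent.GB

open Pool.Agent.helper58.DC Pool.Agent.DI Pool.Agent.GR Pool.Agent.OB Pool.Agent.DR Pool.Agent.FI Pool.Agent.FI3 Pool.Agent.FI4 Pool.Agent.LE Pool.Agent.BR

theorem FUZ_tr {G : Type} [Group G] {M : Ideal (integralClosure ℤ ℂ)} {L : Subgroup G} {a b c : G → ℂ} (h1 : SB M L a b) (h2 : SB M L a c) : SB M L b c := by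
  intro z hz hi
  obtain ⟨u, hu, e1⟩ := h1 z hz hi
  obtain ⟨w, hw, e2⟩ := h2 z hz hi
  refine ⟨w - u, M.sub_mem hw hu, ?_⟩
  have e3 : (((w - u : integralClosure ℤ ℂ)) : ℂ) = (w : ℂ) - (u : ℂ) := rfl
  rw [e3, ← e1, ← e2]
  ring

theorem FUZ_tr2 {G : Type} [Group G] {M : Ideal (integralClosure ℤ ℂ)} {L : Subgroup G} {a b c : G → ℂ} (h1 : SB M L a b) (h2 : SB M L b c) : SB M L a c := by
  intro z hz hi
  obtain ⟨u, hu, e1⟩ := h1 z hz hi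
  obtain ⟨w, hw, e2⟩ := h2 z hz hi
  refine ⟨u + w, M.add_mem hu hw, ?_⟩
  have e3 : (((u + w : integralClosure ℤ ℂ)) : ℂ) = (u : ℂ) + (w : ℂ) := rfl
  rw [e3, ← e1, ← e2]
  ring

theorem FUZ_mem {G : Type} [Group G] {v y : G} (h : v * y = y * v) : y ∈ Cz (⊤ : Subgroup G) v := by
  refine Subgroup.mem_inf.2 ⟨Subgroup.mem_top y, Subgroup.mem_centralizer_iff.2 ?_⟩
  rintro w rfl
  exact h

/-- **FUZ** -/
theorem FUZ (hEXB : EXB_stmt) (hCNTL : CNTL_stmt) (hDFZ : DFZ_stmt) (hUNZ : UNZ_stmt) : FUZ_stmt := by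
  intro p M hS G _ _ D x θ χ hR v hvD hvz t htD htz hSB
  have hDL : D ≤ Cz (⊤ : Subgroup G) v := by
    intro y hy
    exact FUZ_mem ((Subgroup.mem_centralizer_iff.1 hvz) y hy).symm
  have hCL : cz D ≤ Cz (⊤ : Subgroup G) v := by
    intro y hy
    exact FUZ_mem ((Subgroup.mem_centralizer_iff.1 hy) v hvD)
  have hD1 : ∀ y, y ∈ cj t⁻¹ D ↔ t * y * t⁻¹ ∈ D := by
    intro y
    rw [mem_cj, inv_inv]
  have hvD1 : v ∈ cj t⁻¹ D := (hD1 v).2 htD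
  have hD1L : cj t⁻¹ D ≤ Cz (⊤ : Subgroup G) v := by
    intro y hy
    apply FUZ_mem
    have h := (Subgroup.mem_centralizer_iff.1 htz) _ ((hD1 y).1 hy)
    have h2 : t * (y * v) * t⁻¹ = t * (v * y) * t⁻¹ := by
      calc t * (y * v) * t⁻¹ = t * y * t⁻¹ * (t * v * t⁻¹) := by group
        _ = t * v * t⁻¹ * (t * y * t⁻¹) := h
        _ = t * (v * y) * t⁻¹ := by group
    exact (mul_left_cancel (mul_right_cancel h2)).symm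
  have hC1L : cz (cj t⁻¹ D) ≤ Cz (⊤ : Subgroup G) v := by
    intro y hy
    exact FUZ_mem ((Subgroup.mem_centralizer_iff.1 hy) v hvD1)
  have hpD : IsPGroup p D := hR.dfa.pgrp
  have hpD1 : IsPGroup p (cj t⁻¹ D) := hpD.map _
  obtain ⟨ψ, hψ, hθψ⟩ := hEXB p M hS G (Cz ⊤ v) D hpD hDL θ (by rw [inf_eq_right.2 hCL]; exact hR.th)
  obtain ⟨x', hx', _, hdef⟩ := hDFZ p M hS G D x θ χ hR (Cz ⊤ v) hDL hCL ψ hψ hθψ
  have hθ1 : cjF t⁻¹ θ ∈ IrrOn (cz (cj t⁻¹ D)) := by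
    rw [cj_cz]
    exact IrrOn_funMap hR.th t⁻¹
  have hθ1ψ : SB M (Cz ⊤ v) (cjF t⁻¹ θ) ψ := FUZ_tr hSB hθψ
  obtain ⟨l, hl, hlD⟩ := hCNTL p M hS G (Cz ⊤ v) (cj t⁻¹ D) hpD1 hD1L (cjF t⁻¹ θ) (by rw [inf_eq_right.2 hC1L]; exact hθ1) ψ hθ1ψ D x' hdef
  have hle : cj (l * t⁻¹) D ≤ D := by
    intro y hy
    rw [mem_cj] at hy
    have h1 : t⁻¹ * ((l * t⁻¹)⁻¹ * y * (l * t⁻¹)) * t ∈ cj t⁻¹ D := by
      rw [hD1]
      have e : t * (t⁻¹ * ((l * t⁻¹)⁻¹ * y * (l * t⁻¹)) * t) * t⁻¹ = (l * t⁻¹)⁻¹ * y * (l * t⁻¹) := by group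
      rw [e]
      exact hy
    have h2 := hlD _ h1
    have e : l * (t⁻¹ * ((l * t⁻¹)⁻¹ * y * (l * t⁻¹)) * t) * l⁻¹ = y := by group
    rwa [e] at h2
  have heq : cj (l * t⁻¹) D = D := Subgroup.eq_of_le_of_card_ge hle (by rw [card_cj])
  have hnz : l * t⁻¹ ∈ nz D := cj_nz.1 heq
  have hθ2 : cjF (l * t⁻¹) θ ∈ IrrOn (cz D) := by
    have h := IrrOn_funMap hR.th (l * t⁻¹)
    rw [← cj_cz, heq] at h
    exact h
  have hθ2ψ : SB M (Cz ⊤ v) (cjF (l * t⁻¹) θ) ψ := by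
    have e : cjF (l * t⁻¹) θ = funMap (MulAut.conj l) (cjF t⁻¹ θ) := Pool.Agent.FI.funMap_mul l t⁻¹ θ
    rw [e]
    exact FUZ_tr2 (SB_inner hl _) hθ1ψ
  obtain ⟨n, hn, hnn, hnS⟩ := hUNZ p M hS G (Cz ⊤ v) D x' ψ hψ hdef hCL θ hR.th hθψ (cjF (l * t⁻¹) θ) hθ2 hθ2ψ
  have hm : n * (l * t⁻¹) ∈ TT M D θ := by
    refine ⟨(nz D).mul_mem hnn hnz, ?_⟩
    have e : funMap (MulAut.conj (n * (l * t⁻¹))) θ = cjF n (cjF (l * t⁻¹) θ) := Pool.Agent.FI.funMap_mul n (l * t⁻¹) θ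
    rw [e]
    exact hnS
  refine ⟨(n * (l * t⁻¹))⁻¹, (TT M D θ).inv_mem hm, n * l, (Cz ⊤ v).mul_mem hn hl, ?_⟩
  group

end Pool.Agent.GB
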