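import Pool.Agent.helper68.GB.Spec

/-!
# Project GB (MP_baa4d7_al), row ZH0: heredity of defect groups, absolute form
-/

set_option autoImplicit false

namespace Pool.Agent.GB

open Pool.Agent.helper58.DC Pool.Agent.DI Pool.Agent.GR Pool.Agent.OB Pool.Agent.DR Pool.Agent.FI Pool.Agent.FI3 Pool.Agent.FI4 Pool.Agent.LE Pool.Agent.BR

theorem ZH0_card {G : Type} [Group G] [Finite G] {P Q : Subgroup G} (l : G) (h : ∀ r ∈ P, l * r * l⁻¹ ∈ Q) : Nat.card P ≤ Nat.card Q := by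
  have h1 : cj l P ≤ Q := by
    intro y hy
    rw [mem_cj] at hy
    have h2 := h _ hy
    have e : l * (l⁻¹ * y * l) * l⁻¹ = y := by group
    rwa [e] at h2
  rw [← card_cj l P]
  exact Subgroup.card_le_of_le h1

/-- **ZH0** -/
theorem ZH0 (hDGL : DGL_stmt) (hCNTL : CNTL_stmt) (hCJG : CJG_stmt) (hTPR : Pool.Agent.FI.TPR_stmt) (hCNZ : CNZ_stmt) (hUQT : UQT_stmt)
    (hNSB : NSB_stmt) (hCJB : CJB_stmt) (hREP : REP_stmt) : ZH0_stmt := by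
  intro p M hS G _ _ D x χ hχ hdef K Q y η hη hSB hdefL hCQ
  -- the pair of `Q`
  obtain ⟨θ₁, hθ₁, hθ₁η⟩ := hDGL p M hS G K η hη Q y hdefL
  rw [inf_eq_right.2 hCQ] at hθ₁
  obtain ⟨e, he⟩ : ∃ e, e = eS (cz Q) (Bl M (cz Q) θ₁) := ⟨_, rfl⟩
  have heB : e ∈ BB M (cz Q) := ⟨θ₁, hθ₁, he.symm⟩
  obtain ⟨hρI, hρe⟩ := (hREP p M hS G (cz Q)).2.1 e heB
  have hρθ : SB M (cz Q) (rep M (cz Q) e) θ₁ := ((hREP p M hS G (cz Q)).2.2.1 _ hρI _ hθ₁).1 (by rw [hρe, he])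
  have hPai : Pai p M Q e := ⟨hdefL.pg, heB⟩
  have hρK : SB M K (rep M (cz Q) e) η := (TRNb hCQ hρI.1 hθ₁.1 hρθ).trans hθ₁η
  have hρη : SB M (⊤ : Subgroup G) (rep M (cz Q) e) η :=
    TRNb (le_top : K ≤ ⊤) (fun z hz => hρI.1 z (fun h => hz (hCQ h))) hη.1 hρK
  have hρχ : SB M (⊤ : Subgroup G) (rep M (cz Q) e) χ := hρη.trans hSB
  -- the pair of `D`
  obtain ⟨t1, t2, t3, _, _⟩ := hTPR p M hS G
  have hχT : χ ∈ IrrOn (⊤ : Subgroup G) := by rw [t1]; exact hχ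
  obtain ⟨θ, hθ, hθχ⟩ := hDGL p M hS G ⊤ χ hχT D x (t3 χ D x hdef)
  rw [top_inf_eq] at hθ
  have hRt : RtZ p M D x θ χ := ⟨hχ, hdef, hθ, (t2 θ χ).2 hθχ⟩
  obtain ⟨eD, heD⟩ : ∃ eD, eD = eS (cz D) (Bl M (cz D) θ) := ⟨_, rfl⟩
  have hPaiD : Pai p M D eD := ⟨hdef.pgrp, θ, hθ, heD.symm⟩
  obtain ⟨g, hg⟩ := hCNZ p M hS G D x θ χ hRt Q e hPai hρχ
  rw [← heD] at hg
  -- transport by `g`
  obtain ⟨c1, c2, _, c4, c5, _⟩ := hCJG G M p g K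
  have hdef' := c4 η Q y hdefL
  have hρK' : SB M (cjS g K) (cjF g (rep M (cz Q) e)) (cjF g η) := c2 _ _ hρK
  have hczQ : cz (cjS g Q) = cjS g (cz Q) := c5 Q
  have hCQ' : cz (cjS g Q) ≤ cjS g K := by
    rw [hczQ]
    exact Subgroup.map_mono hCQ
  have hrep' : SB M (cjS g (cz Q)) (rep M (cjS g (cz Q)) (cjF g e)) (cjF g (rep M (cz Q) e)) := (hCJB p M hS G g (cz Q) e).2.1 heB
  have heB' : cjF g e ∈ BB M (cjS g (cz Q)) := ((hCJB p M hS G g (cz Q) e).1).1 heB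
  have hρI' := ((hREP p M hS G (cjS g (cz Q))).2.1 _ heB').1
  have hρI2 : cjF g (rep M (cz Q) e) ∈ IrrOn (cjS g (cz Q)) := (hCJG G M p g (cz Q)).1 _ hρI
  have hmain : SB M (cjS g K) (rep M (cz (cjS g Q)) (cjF g e)) (cjF g η) := by
    rw [hczQ]
    exact (TRNb (Subgroup.map_mono hCQ) hρI'.1 hρI2.1 hrep').trans hρK'
  obtain ⟨_, u2, u3, u4, _⟩ := hUQT p M hS G D eD hPaiD
  obtain ⟨hQD, hun⟩ := u4 _ _ hg
  have hQK : cjS g Q ≤ cjS g K := Subgroup.map_mono (hdefL.le.trans inf_le_left)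
  have hfirst : D ⊓ cz (cjS g Q) ≤ cjS g Q := by
    have hPD : cjS g Q ⊔ (D ⊓ cz (cjS g Q)) ≤ D := sup_le hQD inf_le_left
    have hPK : cjS g Q ⊔ (D ⊓ cz (cjS g Q)) ≤ cjS g K := sup_le hQK (inf_le_right.trans hCQ')
    have hPn : cjS g Q ⊔ (D ⊓ cz (cjS g Q)) ≤ nz (cjS g Q) := sup_le Subgroup.le_normalizer (inf_le_right.trans (cz_le_nz _))
    have hcP : cz (cjS g Q ⊔ (D ⊓ cz (cjS g Q))) ≤ cz (cjS g Q) := Subgroup.centralizer_le (SetLike.coe_subset_coe.2 le_sup_left)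
    have hNin := u3 (cjS g Q) (cjS g Q ⊔ (D ⊓ cz (cjS g Q))) le_sup_left hPD hPn
    rw [← hun] at hNin
    have hs := ((hNSB p M hS G _ _ _ _).1 hNin) (cjS g K) hPK hCQ'
    have hs2 := hs.trans hmain
    have hI := ((hREP p M hS G (cz (cjS g Q ⊔ (D ⊓ cz (cjS g Q))))).2.1 _ hNin.r.bb).1
    have hpP : IsPGroup p (cjS g Q ⊔ (D ⊓ cz (cjS g Q)) : Subgroup G) := hdef.pgrp.to_le hPD
    obtain ⟨l, _, hl⟩ := hCNTL p M hS G (cjS g K) _ hpP hPK _ (by rw [inf_eq_right.2 (hcP.trans hCQ')]; exact hI) _ hs2 _ _ hdef'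
    have hcard := ZH0_card l hl
    have heq : cjS g Q = cjS g Q ⊔ (D ⊓ cz (cjS g Q)) := Subgroup.eq_of_le_of_card_ge le_sup_left hcard
    intro z hz
    rw [heq]
    exact (le_sup_right : D ⊓ cz (cjS g Q) ≤ _) hz
  refine ⟨⟨g, hQD, hfirst⟩, ?_⟩
  intro hl
  have h1 := hl g hQD
  have hDK : D ≤ cjS g K := by
    intro z hz
    rw [mem_cjS]
    apply h1
    rw [mem_cjS]
    have e1 : (g⁻¹)⁻¹ * (g⁻¹ * z * g) * g⁻¹ = z := by group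
    rw [e1]
    exact hz
  have hcD : cz D ≤ cjS g K := (Subgroup.centralizer_le (SetLike.coe_subset_coe.2 hQD)).trans hCQ'
  have hs := ((hNSB p M hS G _ _ _ _).2.2 hg).2 (cjS g K) hDK hCQ'
  have hs2 := hs.trans hmain
  have hI := ((hREP p M hS G (cz D)).2.1 _ hPaiD.bb).1
  obtain ⟨l, _, hll⟩ := hCNTL p M hS G (cjS g K) D hdef.pgrp hDK _ (by rw [inf_eq_right.2 hcD]; exact hI) _ hs2 _ _ hdef'
  have hcard := ZH0_card l hll
  have hcQ : Nat.card (cjS g Q) = Nat.card Q := card_cj g Q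
  have hle := Subgroup.card_le_of_le hQD
  apply le_antisymm
  · rw [← hcQ]
    exact hle
  · rw [← hcQ]
    exact hcard

end Pool.Agent.GB
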